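import Pool.Agent.H.MP_3489e4_al.NoSL

set_option autoImplicit false

namespace Pool.Agent.Results.MP_3489e4_al.WeakGeo

/-- value of a word over the generating set -/
def ev {G : Type} [Group G] {X : Finset G} (w : List X) : G := (w.map Subtype.val).prod

/-- `L` is the language of an automatic structure -/
def Automatic {G : Type} [Group G] (X : Finset G) (L : Language X) : Prop :=
  L.IsRegular ∧ (∀ g : G, ∃ w ∈ L, ev w = g) ∧
    ∀ x : G, (x ∈ X ∨ x = 1) →
      Language.IsRegular ({z | ∃ u ∈ L, ∃ v ∈ L, ev u * x = ev v ∧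
        z = List.zipWithAll Prod.mk u v} : Language (Option X × Option X))

def Geodesic {G : Type} [Group G] {X : Finset G} (w : List X) : Prop :=
  ∀ w' : List X, ev w' = ev w → w.length ≤ w'.length

def ShortLex {G : Type} [Group G] (X : Finset G) (r : X → X → Prop) : Language X :=
  {w | ∀ w' : List X, ev w' = ev w →
    w.length < w'.length ∨ (w.length = w'.length ∧ (w = w' ∨ List.Lex r w w'))}

open Pool.Agent.H.MP_3489e4_al Pool.Agent.Lib.RegKit in
theorem result :
    ∃ (G : Type) (_ : Group G) (X : Finset G),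
      (∀ x ∈ X, x⁻¹ ∈ X) ∧ Subgroup.closure (X : Set G) = ⊤ ∧
      (∃ L : Language X, Automatic X L ∧ ∀ w ∈ L, Geodesic w) ∧
      ∀ r : X → X → Prop, IsStrictTotalOrder X r → ¬ Automatic X (ShortLex X r) := by
  refine ⟨K, inferInstance, X, X_inv, ?_, ⟨{w | LL w}, ⟨reg_LL, LL_onto, ?_⟩, ?_⟩, ?_⟩
  · rw [eq_top_iff]
    intro g _
    obtain ⟨w, _, rfl⟩ := LL_onto g
    apply Subgroup.list_prod_mem
    intro x hx
    obtain ⟨a, _, rfl⟩ := List.mem_map.mp hx
    exact Subgroup.subset_closure a.2
  · intro x hx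
    have hb : x ∈ Box 1 := by
      rcases hx with hx | rfl
      · have := f_bd ⟨x, hx⟩
        simp only [fp, fz, fq] at this
        simp only [Box, Set.mem_ofPred_eq]; omega
      · simp [Box]
    have := rel_reg Subtype.val LL reg_LL x (Box 5) (box_finite 5)
      (fun u v hu hv h i => ft x hb u v hu hv h i)
    refine this.congr (fun z => ?_)
    constructor
    · rintro ⟨u, v, h1, h2, h3⟩; exact ⟨u, h1, v, h2, h3⟩
    · rintro ⟨u, h1, v, h2, h3⟩; exact ⟨u, v, h1, h2, h3⟩
  · intro w hw
    exact geo_of w (LL_min w hw)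
  · rintro r hr ⟨h1, h2, -⟩
    exact not_reg hr h1 h2

end Pool.Agent.Results.MP_3489e4_al.WeakGeo
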